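import Pool.Agent.LibCF91.TB7
import Pool.Agent.LibST91T.TX3

/-!
# MP_a1107e_nt: a bound for all integral points of all elliptic curves `y² = x³ + A x + B`

`log max(|x|, |y|) ≤ C N^(1/2) (log (2 + |A| + |B|))^κ` with
`N = rad(4A³ + 27B²) rad(gcd(A, B)) rad(gcd(y, 3x² + A))`; `N` divides `216 (4A³ + 27B²)`.

Proof. Let `x` be large. The quartic `g = T⁴ - 6xT² - 8yT - 3x² - 4A` has one root `t₁` near `3√x` and
three roots `t₂, t₃, t₄` near `-√x`, with differences `O(x^(-1/2))`; it is irreducible. Let `K = ℚ(t)` and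
`η = g'(t)`, an integer of `K` with norm `disc g = -4096 (4A³ + 27B²)`. With
`β = (t₁ - t₃) / (t₁ - t₄)` one has `β² = c η₃/η₄`, where `c = (e₁ - e₃) / (e₂ - e₁)` is a ratio of
differences of roots of `X³ + AX + B`, and `0 < |β² - 1| ≤ x^(-1/2)` (`Pool/Agent/LibSQ55`). A power of
`η` is a product of powers of `≤ 4` numbers `uη^j` (`u` a unit) with product of the heights
`≤ C |D_K|^(1/2) (log)^κ`, and the lower bound for linear forms in logarithms, linear in the product
of the heights, is proved in `Pool/Agent/LibST91`, `Pool/Agent/LibST91A` (Schneider's method in any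
number of logarithms, zero estimate by reduction modulo a prime) and `Pool/Agent/LibST91T`.
The discriminant `D_K` divides `2¹¹ 3⁷ N` (`Pool/Agent/LibCF91`, `Pool/Agent/LibRC21A`): if `P^e` is the
exact power of a prime of `K` in `p` and `4 < p^M` then `P^(eM)` does not divide the different, since
an element `≡ 1` modulo `P^(eM)` and `≡ 0` modulo the other primes has as trace modulo `p^M` the rank
of an idempotent matrix; so `p³ ∤ D_K` for `p ≥ 5` unless `g ≡ T⁴` modulo `p`. For `p ∤ 2A(2Ax + 3B)` and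
`p^(2k) ∣ 4A³ + 27B²` the number `(g(t) - g(r)) / (p^k (t - r))` is integral for an integer `r`.
-/

set_option autoImplicit false

namespace Pool.Agent.Results.MP_a1107e_nt.IntegralPointConductor

theorem result : ∃ C : ℝ, 0 < C ∧ ∃ κ : ℕ, ∀ A B x y : ℤ,
    4 * A ^ 3 + 27 * B ^ 2 ≠ 0 → y ^ 2 = x ^ 3 + A * x + B →
    ∃ N : ℕ, N = (∏ p ∈ (4 * A ^ 3 + 27 * B ^ 2).natAbs.primeFactors, p) *
        (∏ p ∈ (Int.gcd A B).primeFactors, p) *
        (∏ p ∈ (Int.gcd y (3 * x ^ 2 + A)).primeFactors, p) ∧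
      N ∣ 216 * (4 * A ^ 3 + 27 * B ^ 2).natAbs ∧
      Real.log (max |(x : ℝ)| |(y : ℝ)|) ≤
        C * √(N : ℝ) * Real.log (2 + |(A : ℝ)| + |(B : ℝ)|) ^ κ := by
  obtain ⟨C, hC, κ, h⟩ := Pool.Agent.LibCF91.conductor_bound (Pool.Agent.LibST91.main_X 4 9)
  exact ⟨C, hC, κ, fun A B x y hΔ hE =>
    ⟨_, rfl, Pool.Agent.LibCF91.number_dvd hΔ hE, (h A B x y hΔ hE).2.1⟩⟩

end Pool.Agent.Results.MP_a1107e_nt.IntegralPointConductor
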