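import Pool.Agent.LibER91.Final4

set_option autoImplicit false

namespace Pool.Agent.Results.MP_a1107e_nt.PowerSaving

/-- Almost all Weierstrass curves `y^2 = x^3 + A x + B`, ordered by height, have no integral point
in a very long exponential range: for every `ε > 0` there is `δ > 0` such that all but
`O(H^(5 - δ))` of the pairs `(A, B)` with `|A| ≤ H^2`, `|B| ≤ H^3` and `4 A^3 + 27 B^2 ≠ 0` have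
no integral point with `|x| ≤ exp (H^(1 - ε))`. -/
theorem result : ∀ ε : ℝ, 0 < ε → ∃ δ : ℝ, 0 < δ ∧ ∃ K : ℝ, ∀ H : ℝ, 1 ≤ H →
    {p : ℤ × ℤ | |(p.1 : ℝ)| ≤ H ^ 2 ∧ |(p.2 : ℝ)| ≤ H ^ 3 ∧ 4 * p.1 ^ 3 + 27 * p.2 ^ 2 ≠ 0 ∧
      ∃ x y : ℤ, y ^ 2 = x ^ 3 + p.1 * x + p.2 ∧
        |(x : ℝ)| ≤ Real.exp (H ^ (1 - ε))}.Finite ∧
    ({p : ℤ × ℤ | |(p.1 : ℝ)| ≤ H ^ 2 ∧ |(p.2 : ℝ)| ≤ H ^ 3 ∧ 4 * p.1 ^ 3 + 27 * p.2 ^ 2 ≠ 0 ∧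
      ∃ x y : ℤ, y ^ 2 = x ^ 3 + p.1 * x + p.2 ∧
        |(x : ℝ)| ≤ Real.exp (H ^ (1 - ε))}.ncard : ℝ) ≤ K * H ^ (5 - δ) :=
  Pool.Agent.LibER91.final4

end Pool.Agent.Results.MP_a1107e_nt.PowerSaving
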