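import Pool.Agent.LibHV64.E1
import Pool.Agent.LibDP24.H6

/-!
# MP_a1107e_nt: the Hall-Lang inequality with absolute constants up to `3 * 2 ^ (r - 1) - 2` pairs of points in rank `r`

There are absolute constants `K, M > 0` such that for every elliptic curve `y² = x³ + A x + B` with integral coefficients, every
`r` and every subgroup `Γ` of `E(ℚ)` of rank at most `r` (for instance `Γ = E(ℚ)`) all integral points `(x, y)` of `Γ` satisfy
`max(|x|, |y|) ≤ K max(|A|, |B|) ^ M`, except at most `3 * 2 ^ (r - 1) - 2` pairs `(x, ± y)`: none for `r = 0`, one for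
`r = 1`, four for `r = 2`, ten for `r = 3`, 22 for `r = 4` (the sums of `1, 3, 6, 12, 24, ..., 3 * 2 ^ (r - 2)`).

Proof. For bounded `r`: the bound of `IntegralPointConductor` for all integral points, a lower bound for the canonical height of
points of infinite order and Dirichlet's theorem give small relations between dependent integral points modulo torsion; large points
are so close to the point at infinity that the relations are exact and that no winding occurs in `E(ℝ)`
(`Pool/Agent/LibDP24`). So for `s = 1, ..., r` the next points, those which together with all larger ones span rank `s`, have nearly the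
same height, and their mutual angles are at least `60` degrees up to a small error; at most `1, 3, 6, 12, ..., 3 * 2 ^ (s - 2)` lines of
`ℝ ^ s` are so (linear programming bound with `t ^ (2 m) (t ^ 2 - 1 / 4)`; `Pool/Agent/LibHV64`). For large `r` (`Pool/Agent/LibHU64`): points with
`log x ≥ D (r + 1)² log (2 + |A| + |B|)` lie in `r` windows `[X, 1.3 X]`, the others in `O(r)` windows, and each window contains at most
`3 (r + 1)² 2 ^ (5 r / 6)` points.
-/

set_option autoImplicit false

namespace Pool.Agent.Results.MP_a1107e_nt.RankExceptions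

theorem result : ∃ K M : ℝ, 0 < K ∧ 0 < M ∧ ∀ A B : ℤ, 4 * A ^ 3 + 27 * B ^ 2 ≠ 0 →
    ∀ (r : ℕ) (Γ : AddSubgroup (⟨0, 0, 0, (A : ℚ), (B : ℚ)⟩ : WeierstrassCurve ℚ).toAffine.Point),
      Module.rank ℤ Γ ≤ r →
      ∃ X : Finset ℤ, (r = 0 → X = ∅) ∧ (1 ≤ r → X.card + 2 ≤ 3 * 2 ^ (r - 1)) ∧
        ∀ (x y : ℤ) (h : (⟨0, 0, 0, (A : ℚ), (B : ℚ)⟩ : WeierstrassCurve ℚ).toAffine.Nonsingular
            (x : ℚ) (y : ℚ)),
          WeierstrassCurve.Affine.Point.some (x : ℚ) (y : ℚ) h ∈ Γ → x ∉ X →
            max |(x : ℝ)| |(y : ℝ)| ≤ K * (max |(A : ℝ)| |(B : ℝ)|) ^ M := by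
  obtain ⟨K, M, hK, hM, H⟩ := Pool.Agent.LibHV64.finalV Pool.Agent.LibDP24.pb
  refine ⟨K, M, hK, hM, fun A B hD r Γ hΓ => ?_⟩
  obtain ⟨hfin, hcard⟩ := H r A B hD Γ hΓ
  have hc : hfin.toFinset.card ≤ 3 * 2 ^ r / 2 - 2 := by
    rwa [← Set.ncard_eq_toFinset_card _ hfin]
  refine ⟨hfin.toFinset, fun hr => ?_, fun hr => ?_, fun x y h hmem hx => ?_⟩
  · subst hr
    rw [← Finset.card_eq_zero]
    simpa using hc
  · obtain ⟨k, rfl⟩ : ∃ k, r = k + 1 := ⟨r - 1, by omega⟩
    have h2 : 3 * 2 ^ (k + 1) / 2 = 3 * 2 ^ k := by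
      rw [pow_succ, ← mul_assoc]
      exact Nat.mul_div_cancel _ (by norm_num)
    have h3 : 1 ≤ 2 ^ k := Nat.one_le_two_pow
    rw [h2] at hc
    rw [Nat.add_sub_cancel]
    omega
  · by_contra hlt
    exact hx (hfin.mem_toFinset.2 ⟨y, h, hmem, not_le.1 hlt⟩)

end Pool.Agent.Results.MP_a1107e_nt.RankExceptions
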