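import Pool.Agent.LibV44.WV0

set_option autoImplicit false

namespace Pool.Agent.Results.MP_a1107e_nt.RationalThreeTorsion

/-- the nonsingular curves `y^2 = x^3 + A x + B` with `|A| ≤ X^2`, `|B| ≤ X^3` and an integral point of
order three (a zero of the third division polynomial) -/
def Fam (X : ℕ) : Set (ℤ × ℤ) :=
  {z | |z.1| ≤ (X : ℤ) ^ 2 ∧ |z.2| ≤ (X : ℤ) ^ 3 ∧ 4 * z.1 ^ 3 + 27 * z.2 ^ 2 ≠ 0 ∧
    ∃ x y : ℤ, y ^ 2 = x ^ 3 + z.1 * x + z.2 ∧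
      3 * x ^ 4 + 6 * z.1 * x ^ 2 + 12 * z.2 * x - z.1 ^ 2 = 0}

/-- the members of `Fam X` with an integral point which is not of order three -/
def Exc (X : ℕ) : Set (ℤ × ℤ) :=
  {z | z ∈ Fam X ∧ ∃ x y : ℤ, y ^ 2 = x ^ 3 + z.1 * x + z.2 ∧
    3 * x ^ 4 + 6 * z.1 * x ^ 2 + 12 * z.2 * x - z.1 ^ 2 ≠ 0}

/-- the quadruples `(A, B, x, y)`: an integral point `(x, y)` on a member `(A, B)` of `Fam X` -/
def IntPts (X : ℕ) : Set (ℤ × ℤ × ℤ × ℤ) :=
  {w | (w.1, w.2.1) ∈ Fam X ∧ w.2.2.2 ^ 2 = w.2.2.1 ^ 3 + w.1 * w.2.2.1 + w.2.1}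

/-- The average number of integral points of the elliptic curves with a rational point of order three is `2` (the two
points of order three), with the error `X^(-1/2)` up to powers of `log X`, and this exponent is exact: the number of
exceptional curves and the number of their points are `X^(3/2)` up to powers of `log X`. -/
theorem result : ∃ c C : ℝ, 0 < c ∧ 0 < C ∧ ∀ X : ℕ, 1 ≤ X →
    (Fam X).Finite ∧ (IntPts X).Finite ∧ c * (X : ℝ) ^ 2 ≤ ((Fam X).ncard : ℝ) ∧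
    c * (X : ℝ) ^ (3 / 2 : ℝ) / (1 + Real.log X) ≤ ((Exc X).ncard : ℝ) ∧
    ((Exc X).ncard : ℝ) ≤ (IntPts X).ncard - 2 * (Fam X).ncard ∧
    ((IntPts X).ncard : ℝ) - 2 * (Fam X).ncard ≤
      C * (X : ℝ) ^ (3 / 2 : ℝ) * (1 + Real.log X) ^ 4 :=
  V44.theorem_V0

end Pool.Agent.Results.MP_a1107e_nt.RationalThreeTorsion
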